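import Mathlib

open Real Finset Filter Topology
open scoped ComplexOrder Matrix

namespace H231LT

variable {ι : Type*} [Fintype ι]

/-- real symmetric positive semidefinite kernel -/
def PK (K : ι → ι → ℝ) : Prop :=
  (∀ i k, K i k = K k i) ∧ ∀ x : ι → ℝ, 0 ≤ ∑ i, ∑ k, x i * x k * K i k

theorem PK.iff (K : ι → ι → ℝ) : PK K ↔ (Matrix.of K).PosSemidef := by
  rw [Matrix.posSemidef_iff_dotProduct_mulVec]
  constructor
  · rintro ⟨h1, h2⟩
    refine ⟨?_, fun x => ?_⟩
    · ext i k
      simp [Matrix.conjTranspose_apply, h1 k i]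
    · have := h2 x
      refine this.trans_eq ?_
      simp only [dotProduct, Matrix.mulVec, Matrix.of_apply, Pi.star_apply, star_trivial,
        Finset.mul_sum]
      refine Finset.sum_congr rfl fun i _ => Finset.sum_congr rfl fun k _ => by ring
  · rintro ⟨h1, h2⟩
    refine ⟨fun i k => ?_, fun x => ?_⟩
    · have := h1.apply k i
      simpa using this
    · refine (h2 x).trans_eq ?_
      simp only [dotProduct, Matrix.mulVec, Matrix.of_apply, Pi.star_apply, star_trivial,
        Finset.mul_sum]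
      refine Finset.sum_congr rfl fun i _ => Finset.sum_congr rfl fun k _ => by ring

theorem PK.mul {K L : ι → ι → ℝ} (hK : PK K) (hL : PK L) : PK fun i k => K i k * L i k := by
  rw [PK.iff] at *
  exact hK.hadamard hL

theorem PK.add {K L : ι → ι → ℝ} (hK : PK K) (hL : PK L) : PK fun i k => K i k + L i k := by
  refine ⟨fun i k => by simp only [hK.1 i k, hL.1 i k], fun x => ?_⟩
  have := add_nonneg (hK.2 x) (hL.2 x)
  refine this.trans_eq ?_
  rw [← Finset.sum_add_distrib]
  refine Finset.sum_congr rfl fun i _ => ?_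
  rw [← Finset.sum_add_distrib]
  exact Finset.sum_congr rfl fun k _ => by ring

theorem PK.smul {K : ι → ι → ℝ} (hK : PK K) {c : ℝ} (hc : 0 ≤ c) : PK fun i k => c * K i k := by
  refine ⟨fun i k => by simp only [hK.1 i k], fun x => ?_⟩
  have := mul_nonneg hc (hK.2 x)
  refine this.trans_eq ?_
  rw [Finset.mul_sum]
  refine Finset.sum_congr rfl fun i _ => ?_
  rw [Finset.mul_sum]
  exact Finset.sum_congr rfl fun k _ => by ring

theorem PK.rank1 (f : ι → ℝ) : PK fun i k => f i * f k := by
  refine ⟨fun i k => mul_comm _ _, fun x => ?_⟩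
  have : 0 ≤ (∑ i, x i * f i) * (∑ i, x i * f i) := mul_self_nonneg _
  refine this.trans_eq ?_
  rw [Finset.sum_mul_sum]
  exact Finset.sum_congr rfl fun i _ => Finset.sum_congr rfl fun k _ => by ring

theorem PK.const {c : ℝ} (hc : 0 ≤ c) : PK fun (_ _ : ι) => c := by
  have := (PK.rank1 (fun _ : ι => (1 : ℝ))).smul hc
  simpa using this

theorem PK.prod {K : ℕ → ι → ι → ℝ} (hK : ∀ n, PK (K n)) (n : ℕ) :
    PK fun i k => ∏ j ∈ Finset.range n, K j i k := by
  induction n with
  | zero => simpa using PK.const (ι := ι) (zero_le_one)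
  | succ n ih =>
    simp only [Finset.prod_range_succ]
    exact ih.mul (hK n)

theorem PK.lim {K : ℕ → ι → ι → ℝ} {L : ι → ι → ℝ} (hK : ∀ n, PK (K n))
    (h : ∀ i k, Tendsto (fun n => K n i k) atTop (𝓝 (L i k))) : PK L := by
  refine ⟨fun i k => tendsto_nhds_unique (h i k) ?_, fun x => ?_⟩
  · simpa only [(hK _).1 k i] using h k i
  · have : Tendsto (fun n => ∑ i, ∑ k, x i * x k * K n i k) atTop
        (𝓝 (∑ i, ∑ k, x i * x k * L i k)) :=
      tendsto_finsetSum _ fun i _ => tendsto_finsetSum _ fun k _ => (h i k).const_mul _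
    exact ge_of_tendsto' this fun n => (hK n).2 x

theorem PK.integral {K : ℝ → ι → ι → ℝ} {a b : ℝ} (hab : a ≤ b)
    (hK : ∀ r ∈ Set.Icc a b, PK (K r))
    (hi : ∀ i k, IntervalIntegrable (fun r => K r i k) MeasureTheory.volume a b) :
    PK fun i k => ∫ r in a..b, K r i k := by
  refine ⟨fun i k => ?_, fun x => ?_⟩
  · refine intervalIntegral.integral_congr fun r hr => ?_
    rw [Set.uIcc_of_le hab] at hr
    exact (hK r hr).1 i k
  · have e : ∑ i, ∑ k, x i * x k * ∫ r in a..b, K r i k
        = ∫ r in a..b, ∑ i, ∑ k, x i * x k * K r i k := by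
      rw [intervalIntegral.integral_finsetSum]
      · refine Finset.sum_congr rfl fun i _ => ?_
        rw [intervalIntegral.integral_finsetSum]
        · refine Finset.sum_congr rfl fun k _ => ?_
          rw [intervalIntegral.integral_const_mul]
        · intro k _
          exact (hi i k).const_mul _
      · intro i _
        have he : (fun r => ∑ k, x i * x k * K r i k) = ∑ k, fun r => x i * x k * K r i k := by
          ext r; simp
        rw [he]
        exact IntervalIntegrable.sum Finset.univ fun k _ => (hi i k).const_mul (x i * x k)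
    rw [e]
    exact intervalIntegral.integral_nonneg hab fun r hr => (hK r hr).2 x

/-- Cauchy kernel `1/(c i + c k)`. -/
theorem PK.cauchy {c : ι → ℝ} (hc : ∀ i, 0 < c i) : PK fun i k => (c i + c k)⁻¹ := by
  -- `1/(c i + c k) = lim_{e → 0} ∫_e^1 s^(c i + c k - 1)`; use the substitution-free form
  -- on `[0,1]` after the weight `s^{c i + c k - 1}`.
  refine ⟨fun i k => by simp only [add_comm], fun x => ?_⟩
  -- derivative of s^(ci+ck)/(ci+ck)
  have key : ∀ n : ℕ, 0 ≤ ∑ i, ∑ k, x i * x k *
      ((1 - Real.exp (-(n : ℝ) * (c i + c k))) * (c i + c k)⁻¹) := by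
    intro n
    have e : ∀ i k, (1 - Real.exp (-(n : ℝ) * (c i + c k))) * (c i + c k)⁻¹
        = ∫ t in (0 : ℝ)..n, Real.exp (-t * c i) * Real.exp (-t * c k) := by
      intro i k
      have hne : c i + c k ≠ 0 := (add_pos (hc i) (hc k)).ne'
      have hd : ∀ t ∈ Set.uIcc (0 : ℝ) n, HasDerivAt
          (fun t : ℝ => - Real.exp (-t * (c i + c k)) * (c i + c k)⁻¹)
          (Real.exp (-t * c i) * Real.exp (-t * c k)) t := by
        intro t _
        have h1 : HasDerivAt (fun t : ℝ => -t * (c i + c k)) (-1 * (c i + c k)) t :=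
          (hasDerivAt_neg t).mul_const _
        have h2 := (h1.exp.neg).mul_const ((c i + c k)⁻¹)
        have h3 : Real.exp (-t * c i) * Real.exp (-t * c k)
            = -(Real.exp (-t * (c i + c k)) * (-1 * (c i + c k))) * (c i + c k)⁻¹ := by
          rw [← Real.exp_add, show -t * c i + -t * c k = -t * (c i + c k) by ring]
          field_simp
        rw [h3]
        exact h2
      rw [intervalIntegral.integral_eq_sub_of_hasDerivAt hd]
      · simp
        ring
      · apply Continuous.intervalIntegrable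
        fun_prop
    simp only [e]
    have := (PK.integral (ι := ι) (K := fun t i k => Real.exp (-t * c i) * Real.exp (-t * c k))
      (a := 0) (b := n) (Nat.cast_nonneg n) (fun r _ => PK.rank1 _)
      (fun i k => Continuous.intervalIntegrable (by fun_prop) _ _)).2 x
    exact this
  have ht : Tendsto (fun n : ℕ => ∑ i, ∑ k, x i * x k *
      ((1 - Real.exp (-(n : ℝ) * (c i + c k))) * (c i + c k)⁻¹)) atTop
      (𝓝 (∑ i, ∑ k, x i * x k * ((1 - 0) * (c i + c k)⁻¹))) := by
    refine tendsto_finsetSum _ fun i _ => tendsto_finsetSum _ fun k _ => ?_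
    refine Tendsto.const_mul _ (Tendsto.mul_const _ (Tendsto.sub tendsto_const_nhds ?_))
    refine Real.tendsto_exp_atBot.comp ?_
    have hp : 0 < c i + c k := add_pos (hc i) (hc k)
    simp only [neg_mul]
    exact tendsto_neg_atTop_atBot.comp (tendsto_natCast_atTop_atTop.atTop_mul_const hp)
  simp only [sub_zero, one_mul] at ht
  exact ge_of_tendsto' ht key

/-- `sin (r y) / sin y`, `y = (a + b) / 2`, is a PSD kernel on `(0, π)`, `0 ≤ r ≤ 1`. -/
theorem PK.sinratio {g : ι → ℝ} (hg : ∀ i, g i ∈ Set.Ioo 0 π) {r : ℝ} (h0 : 0 ≤ r) (h1 : r ≤ 1) :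
    PK fun i k => Real.sin (r * ((g i + g k) / 2)) / Real.sin ((g i + g k) / 2) := by
  have hy : ∀ i k, (g i + g k) / 2 ∈ Set.Ioo 0 π := fun i k => by
    have := hg i; have := hg k
    simp only [Set.mem_Ioo] at *
    constructor <;> linarith
  -- z = y / π ∈ (0,1)
  set z : ι → ι → ℝ := fun i k => (g i + g k) / 2 / π with hz
  have hz0 : ∀ i k, 0 < z i k := fun i k => div_pos (hy i k).1 pi_pos
  have hz1 : ∀ i k, z i k < 1 := fun i k => by
    rw [hz]; simp only; rw [div_lt_one pi_pos]; exact (hy i k).2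
  have hfac : ∀ n : ℕ, PK fun i k =>
      (1 - (r * z i k) ^ 2 / ((n : ℝ) + 1) ^ 2) / (1 - (z i k) ^ 2 / ((n : ℝ) + 1) ^ 2) := by
    intro n
    have hn : (0 : ℝ) < (n : ℝ) + 1 := by positivity
    have hn1 : (1 : ℝ) ≤ (n : ℝ) + 1 := by
      have : (0 : ℝ) ≤ n := Nat.cast_nonneg n
      linarith
    -- factor = r^2 + (1 - r^2) (m/2) [1/(m - z) + 1/(m + z)]
    have A : PK fun i k => ((((n : ℝ) + 1) / 2 - g i / (2 * π)) +
        (((n : ℝ) + 1) / 2 - g k / (2 * π)))⁻¹ := by
      refine PK.cauchy (c := fun i => ((n : ℝ) + 1) / 2 - g i / (2 * π)) fun i => ?_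
      have : g i / (2 * π) < 1 / 2 := by
        rw [div_lt_div_iff₀ (by positivity) (by norm_num)]
        have := (hg i).2
        linarith
      linarith
    have B : PK fun i k => ((((n : ℝ) + 1) / 2 + g i / (2 * π)) +
        (((n : ℝ) + 1) / 2 + g k / (2 * π)))⁻¹ := by
      refine PK.cauchy (c := fun i => ((n : ℝ) + 1) / 2 + g i / (2 * π)) fun i => ?_
      have : 0 < g i / (2 * π) := div_pos (hg i).1 (by positivity)
      linarith
    have C := ((A.add B).smul (c := (1 - r ^ 2) * (((n : ℝ) + 1) / 2)) (by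
      have : r ^ 2 ≤ 1 := by nlinarith
      have : 0 ≤ 1 - r ^ 2 := by linarith
      positivity)).add (PK.const (ι := ι) (c := r ^ 2) (by positivity))
    convert C using 3 with i k
    have e1 : (((n : ℝ) + 1) / 2 - g i / (2 * π)) + (((n : ℝ) + 1) / 2 - g k / (2 * π))
        = ((n : ℝ) + 1) - z i k := by
      rw [hz]; field_simp; ring
    have e2 : (((n : ℝ) + 1) / 2 + g i / (2 * π)) + (((n : ℝ) + 1) / 2 + g k / (2 * π))
        = ((n : ℝ) + 1) + z i k := by
      rw [hz]; field_simp; ring
    rw [e1, e2]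
    have p1 : ((n : ℝ) + 1) - z i k ≠ 0 := by have := hz1 i k; linarith
    have p2 : ((n : ℝ) + 1) + z i k ≠ 0 := by have := hz0 i k; linarith
    have p3 : ((n : ℝ) + 1) ^ 2 - (z i k) ^ 2 ≠ 0 := by
      have : ((n : ℝ) + 1) ^ 2 - (z i k) ^ 2 = (((n : ℝ) + 1) - z i k) * (((n : ℝ) + 1) + z i k) := by
        ring
      rw [this]; exact mul_ne_zero p1 p2
    have p4 : 1 - (z i k) ^ 2 / ((n : ℝ) + 1) ^ 2 ≠ 0 := by
      rw [show 1 - (z i k) ^ 2 / ((n : ℝ) + 1) ^ 2
        = (((n : ℝ) + 1) ^ 2 - (z i k) ^ 2) / ((n : ℝ) + 1) ^ 2 by field_simp]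
      exact div_ne_zero p3 (by positivity)
    rw [div_eq_iff p4]
    field_simp
    ring
  have hprod := fun n => (PK.prod hfac n).smul h0
  refine PK.lim hprod fun i k => ?_
  have t1 := Real.tendsto_euler_sin_prod (r * z i k)
  have t2 := Real.tendsto_euler_sin_prod (z i k)
  have hs : Real.sin (π * z i k) ≠ 0 := by
    have : π * z i k = (g i + g k) / 2 := by rw [hz]; field_simp
    rw [this]
    exact (Real.sin_pos_of_mem_Ioo (hy i k)).ne'
  have t3 := t1.div t2 hs
  have e1 : π * (r * z i k) = r * ((g i + g k) / 2) := by rw [hz]; field_simp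
  have e2 : π * z i k = (g i + g k) / 2 := by rw [hz]; field_simp
  rw [e1, e2] at t3
  refine t3.congr fun n => ?_
  rw [Finset.prod_div_distrib]
  simp only [Pi.div_apply]
  have hne : π * z i k ≠ 0 := mul_ne_zero pi_pos.ne' (hz0 i k).ne'
  rw [← e1, ← e2]
  rw [show π * (r * z i k) = r * (π * z i k) by ring, mul_assoc r, mul_div_assoc,
    mul_div_mul_left _ _ hne]

/-- `cos (t (a - b))` is a PSD kernel. -/
theorem PK.cosdiff (g : ι → ℝ) (t : ℝ) : PK fun i k => Real.cos (t * (g i - g k)) := by
  have := (PK.rank1 (fun i => Real.cos (t * g i))).add (PK.rank1 (fun i => Real.sin (t * g i)))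
  convert this using 3 with i k
  rw [mul_sub, Real.cos_sub]

/-- `sin (r y + (1 - r) b) / sin y`, `y = (a + c) / 2`, is PSD on `(0, π)` for `b ∈ (0, π)`. -/
theorem PK.sinshift {g : ι → ℝ} (hg : ∀ i, g i ∈ Set.Ioo 0 π) {r b : ℝ} (h0 : 0 ≤ r) (h1 : r ≤ 1)
    (hb : b ∈ Set.Ioo 0 π) :
    PK fun i k => Real.sin (r * ((g i + g k) / 2) + (1 - r) * b) / Real.sin ((g i + g k) / 2) := by
  rcases eq_or_lt_of_le h0 with h | h0'
  · -- r = 0 : sin b / sin y
    subst h
    -- 1 / sin y is the limit r → 0 of  sin (r y') / (r y') ... ; use sinratio at small r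
    have hsb : 0 ≤ Real.sin b := (Real.sin_pos_of_mem_Ioo hb).le
    have hinv : PK fun i k => (Real.sin ((g i + g k) / 2))⁻¹ := by
      -- 1/sin y = (sin (y/2) / sin y + sin ((π - y)/2)/ sin (π - y) ...) * ...: product form
      have key : ∀ n : ℕ, PK fun i k =>
          (Real.sin (((n : ℝ) + 1)⁻¹ * ((g i + g k) / 2)) / Real.sin ((g i + g k) / 2)
            + Real.sin (((n : ℝ) + 1)⁻¹ * (((π - g i) + (π - g k)) / 2))
              / Real.sin (((π - g i) + (π - g k)) / 2)) * (π * ((n : ℝ) + 1)⁻¹)⁻¹ := by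
        intro n
        have hn : (0 : ℝ) < ((n : ℝ) + 1)⁻¹ := by positivity
        have hn1 : ((n : ℝ) + 1)⁻¹ ≤ 1 := by
          apply inv_le_one_of_one_le₀
          have : (0 : ℝ) ≤ n := Nat.cast_nonneg n
          linarith
        have A := PK.sinratio hg hn.le hn1
        have B := PK.sinratio (g := fun i => π - g i) (fun i => by
          have := hg i
          simp only [Set.mem_Ioo] at *
          constructor <;> linarith) hn.le hn1
        have := (A.add B).smul (c := (π * ((n : ℝ) + 1)⁻¹)⁻¹) (by positivity)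
        simpa [mul_comm] using this
      refine PK.lim key fun i k => ?_
      have hy : (g i + g k) / 2 ∈ Set.Ioo 0 π := by
        have := hg i; have := hg k
        simp only [Set.mem_Ioo] at *
        constructor <;> linarith
      set y := (g i + g k) / 2 with hydef
      have e1 : ((π - g i) + (π - g k)) / 2 = π - y := by rw [hydef]; ring
      simp only [e1, Real.sin_pi_sub]
      have hs : Real.sin y ≠ 0 := (Real.sin_pos_of_mem_Ioo hy).ne'
      have hlim : ∀ c : ℝ, Tendsto (fun n : ℕ => Real.sin (((n : ℝ) + 1)⁻¹ * c) * ((n : ℝ) + 1))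
          atTop (𝓝 c) := by
        intro c
        have h1 : Tendsto (fun n : ℕ => ((n : ℝ) + 1)⁻¹) atTop (𝓝[≠] 0) := by
          rw [tendsto_nhdsWithin_iff]
          refine ⟨?_, Filter.Eventually.of_forall fun n => ?_⟩
          · exact tendsto_inv_atTop_zero.comp
              (tendsto_atTop_add_const_right _ _ tendsto_natCast_atTop_atTop)
          · have : (0 : ℝ) < ((n : ℝ) + 1)⁻¹ := by positivity
            exact this.ne'
        have h2 : HasDerivAt (fun x : ℝ => Real.sin (x * c)) (Real.cos (0 * c) * (1 * c)) 0 :=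
          ((hasDerivAt_id (0 : ℝ)).mul_const c).sin
        rw [hasDerivAt_iff_tendsto_slope] at h2
        have h3 := h2.comp h1
        simp only [zero_mul, Real.cos_zero, one_mul] at h3
        refine h3.congr fun n => ?_
        simp [slope_def_field, div_eq_mul_inv]
      have T := (((hlim y).add (hlim (π - y))).mul_const ((Real.sin y)⁻¹ * π⁻¹))
      have e2 : (y + (π - y)) * ((Real.sin y)⁻¹ * π⁻¹) = (Real.sin y)⁻¹ := by
        have := pi_pos.ne'
        field_simp
        ring
      rw [e2] at T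
      refine T.congr fun n => ?_
      have : ((n : ℝ) + 1) ≠ 0 := by positivity
      have := pi_pos.ne'
      field_simp
    have := hinv.smul hsb
    simpa [div_eq_mul_inv] using this
  rcases eq_or_lt_of_le h1 with h | h1'
  · subst h
    have := PK.sinratio hg zero_le_one le_rfl
    simpa using this
  have hs : 0 < Real.sin (r * π) := by
    apply Real.sin_pos_of_pos_of_lt_pi
    · positivity
    · nlinarith [pi_pos]
  have c1 : 0 ≤ Real.sin (r * π + (1 - r) * b) := by
    apply Real.sin_nonneg_of_nonneg_of_le_pi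
    · have := hb.1
      have : 0 ≤ (1 - r) * b := mul_nonneg (by linarith) hb.1.le
      have : 0 ≤ r * π := by positivity
      linarith
    · nlinarith [hb.2]
  have c2 : 0 ≤ Real.sin ((1 - r) * b) := by
    apply Real.sin_nonneg_of_nonneg_of_le_pi
    · exact mul_nonneg (by linarith) hb.1.le
    · nlinarith [hb.2, hb.1, pi_pos]
  have A := (PK.sinratio hg h0 h1).smul (c := Real.sin (r * π + (1 - r) * b) / Real.sin (r * π))
    (by positivity)
  have B := (PK.sinratio (g := fun i => π - g i) (fun i => by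
          have := hg i
          simp only [Set.mem_Ioo] at *
          constructor <;> linarith) h0 h1).smul (c := Real.sin ((1 - r) * b) / Real.sin (r * π))
    (by positivity)
  have C := A.add B
  convert C using 3 with i k
  have e1 : ((π - g i) + (π - g k)) / 2 = π - (g i + g k) / 2 := by ring
  rw [e1, Real.sin_pi_sub]
  set y := (g i + g k) / 2 with hydef
  have hy : y ∈ Set.Ioo 0 π := by
    have := hg i; have := hg k
    simp only [Set.mem_Ioo] at *
    constructor <;> linarith
  have hsy : Real.sin y ≠ 0 := (Real.sin_pos_of_mem_Ioo hy).ne'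
  have hid : Real.sin (r * y + (1 - r) * b) * Real.sin (r * π)
      = Real.sin (r * π + (1 - r) * b) * Real.sin (r * y)
        + Real.sin ((1 - r) * b) * Real.sin (r * (π - y)) := by
    have e2 : r * (π - y) = r * π - r * y := by ring
    rw [e2, Real.sin_add, Real.sin_add, Real.sin_sub]
    ring
  field_simp
  linarith [hid]

/-- trapezoid remainder -/
noncomputable def Lf (a b : ℝ) : ℝ :=
  ∫ r in (0 : ℝ)..1, r * (1 - r) / 2 * Real.sin (r * a + (1 - r) * b)

theorem Lf_symm (a b : ℝ) : Lf a b = Lf b a := by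
  unfold Lf
  have h := intervalIntegral.integral_comp_sub_left
    (fun r : ℝ => r * (1 - r) / 2 * Real.sin (r * b + (1 - r) * a)) (a := 0) (b := 1) 1
  simp only [sub_self, sub_zero] at h
  rw [← h]
  refine intervalIntegral.integral_congr fun r _ => ?_
  rw [show (1 - r) * b + (1 - (1 - r)) * a = r * a + (1 - r) * b by ring]
  ring

theorem Lf_eq (a b : ℝ) : (a - b) ^ 2 * Lf a b
    = Real.sin ((a + b) / 2) * (Real.sinc ((a - b) / 2) - Real.cos ((a - b) / 2)) := by
  by_cases hab : a = b
  · subst hab; simp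
  have hD : a - b ≠ 0 := sub_ne_zero.mpr hab
  have hD2 : (a - b) / 2 ≠ 0 := div_ne_zero hD two_ne_zero
  have hI : Lf a b = (-(Real.sin a + Real.sin b) / (a - b) ^ 2
      - 2 * (Real.cos a - Real.cos b) / (a - b) ^ 3) / 2 := by
    unfold Lf
    have hd : ∀ r ∈ Set.uIcc (0 : ℝ) 1, HasDerivAt
        (fun r : ℝ => (-(r * (1 - r)) * Real.cos (r * a + (1 - r) * b) / (a - b)
          + (1 - 2 * r) * Real.sin (r * a + (1 - r) * b) / (a - b) ^ 2
          - 2 * Real.cos (r * a + (1 - r) * b) / (a - b) ^ 3) / 2)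
        (r * (1 - r) / 2 * Real.sin (r * a + (1 - r) * b)) r := by
      intro r _
      have ht : HasDerivAt (fun r : ℝ => r * a + (1 - r) * b) (a - b) r := by
        have := ((hasDerivAt_id r).mul_const a).add (((hasDerivAt_id r).const_sub 1).mul_const b)
        convert! this using 1
        ring
      have h1 : HasDerivAt (fun r : ℝ => -(r * (1 - r))) (-(1 - 2 * r)) r := by
        have := ((hasDerivAt_id r).mul ((hasDerivAt_id r).const_sub 1)).neg
        convert! this using 1
        simp; ring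
      have h2 : HasDerivAt (fun r : ℝ => (1 - 2 * r)) (-2) r := by
        have := ((hasDerivAt_id r).const_mul 2).const_sub 1
        convert! this using 1
        simp
      have hc := ht.cos
      have hs := ht.sin
      have := ((((h1.mul hc).div_const (a - b)).add
        ((h2.mul hs).div_const ((a - b) ^ 2))).sub ((hc.const_mul 2).div_const ((a - b) ^ 3))).div_const 2
      convert! this using 1
      field_simp
      ring
    rw [intervalIntegral.integral_eq_sub_of_hasDerivAt hd]
    · simp
      ring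
    · apply Continuous.intervalIntegrable
      fun_prop
  rw [hI, Real.sinc_of_ne_zero hD2]
  have e1 : Real.sin a + Real.sin b = 2 * Real.sin ((a + b) / 2) * Real.cos ((a - b) / 2) := by
    rw [Real.sin_add_sin]
  have e2 : Real.cos a - Real.cos b = -2 * Real.sin ((a + b) / 2) * Real.sin ((a - b) / 2) := by
    rw [Real.cos_sub_cos]
  rw [e1, e2]
  field_simp
  ring

theorem PK.lam {g : ι → ℝ} (hg : ∀ i, g i ∈ Set.Ioo 0 π) {b : ℝ} (hb : b ∈ Set.Ioo 0 π) :
    PK fun i k => (Lf (g i) b + Lf (g k) b) / Real.sin ((g i + g k) / 2) := by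
  have key : PK fun i k => ∫ r in (0 : ℝ)..1, (r * (1 - r)) *
      (Real.sin (r * ((g i + g k) / 2) + (1 - r) * b) / Real.sin ((g i + g k) / 2)
        * Real.cos (r / 2 * (g i - g k))) := by
    refine PK.integral zero_le_one (fun r hr => ?_) fun i k => ?_
    · exact ((PK.sinshift hg hr.1 hr.2 hb).mul (PK.cosdiff g (r / 2))).smul
        (mul_nonneg hr.1 (by linarith [hr.2]))
    · apply Continuous.intervalIntegrable
      fun_prop
  convert key using 3 with i k
  unfold Lf
  rw [← intervalIntegral.integral_add, div_eq_mul_inv, ← intervalIntegral.integral_mul_const]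
  · refine intervalIntegral.integral_congr fun r _ => ?_
    have e : Real.sin (r * g i + (1 - r) * b) + Real.sin (r * g k + (1 - r) * b)
        = 2 * Real.sin (r * ((g i + g k) / 2) + (1 - r) * b) * Real.cos (r / 2 * (g i - g k)) := by
      rw [Real.sin_add_sin]
      congr 2
      · congr 1
        ring
      · ring
    rw [← mul_add, e]
    ring
  · apply Continuous.intervalIntegrable
    fun_prop
  · apply Continuous.intervalIntegrable
    fun_prop

theorem PK.toComplex {K : ι → ι → ℝ} (hK : PK K) :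
    (Matrix.of fun i k => ((K i k : ℝ) : ℂ)).PosSemidef := by
  classical
  rw [Matrix.posSemidef_iff_dotProduct_mulVec]
  refine ⟨?_, fun x => ?_⟩
  · ext i k
    simp [Matrix.conjTranspose_apply, hK.1 k i]
  · have h1 := hK.2 fun i => (x i).re
    have h2 := hK.2 fun i => (x i).im
    have h3 : ∑ i, ∑ k, (x i).re * (x k).im * K i k - ∑ i, ∑ k, (x i).im * (x k).re * K i k = 0 := by
      rw [sub_eq_zero, Finset.sum_comm]
      refine Finset.sum_congr rfl fun i _ => Finset.sum_congr rfl fun k _ => ?_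
      rw [hK.1 k i]; ring
    have e : star x ⬝ᵥ ((Matrix.of fun i k => ((K i k : ℝ) : ℂ)) *ᵥ x)
        = (((∑ i, ∑ k, (x i).re * (x k).re * K i k + ∑ i, ∑ k, (x i).im * (x k).im * K i k : ℝ)) : ℂ)
          + ((∑ i, ∑ k, (x i).re * (x k).im * K i k
              - ∑ i, ∑ k, (x i).im * (x k).re * K i k : ℝ) : ℂ) * Complex.I := by
      push_cast
      simp only [dotProduct, Matrix.mulVec, Matrix.of_apply, Pi.star_apply, Finset.mul_sum,
        ← Finset.sum_add_distrib, ← Finset.sum_sub_distrib, Finset.sum_mul]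
      refine Finset.sum_congr rfl fun i _ => Finset.sum_congr rfl fun k _ => ?_
      have hi : star (x i) = ((x i).re : ℂ) - (x i).im * Complex.I := by
        apply Complex.ext <;> simp
      have hk : x k = ((x k).re : ℂ) + (x k).im * Complex.I := by
        apply Complex.ext <;> simp
      rw [hi]
      conv_lhs => rw [hk]
      ring_nf
      rw [Complex.I_sq]
      ring
    rw [e, h3]
    simp only [Complex.ofReal_zero, zero_mul, add_zero]
    exact_mod_cast add_nonneg h1 h2

omit [Fintype ι] in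
theorem rot [Fintype ι] (F : ι → ι → ι → ℂ) :
    ∑ i, ∑ j, ∑ k, F i j k = ∑ i, ∑ j, ∑ k, F j k i := by
  rw [Finset.sum_comm]
  conv_rhs => rw [Finset.sum_comm]
  have : ∀ j, ∑ i, ∑ k, F j k i = ∑ k, ∑ i, F j k i := fun j => Finset.sum_comm
  simp only [this]
  exact Finset.sum_comm

/-- **Challenge (a) of doc 999.** Positivity of the remainder of the matrix valued calibration:
for `g i ∈ (0, π)` and every complex positive semidefinite matrix `R`,
`∑ R_ij R_jk R_ki (sinc d - cos d) / (sin A sin B) ≥ 0`,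
`A = (g_i + g_j)/2`, `B = (g_k + g_j)/2`, `d = (g_i - g_k)/2`. -/
theorem remainder_nonneg {g : ι → ℝ} (hg : ∀ i, g i ∈ Set.Ioo 0 π) {R : Matrix ι ι ℂ}
    (hR : R.PosSemidef) :
    0 ≤ ∑ i, ∑ j, ∑ k, R i j * R j k * R k i *
      (((Real.sinc ((g i - g k) / 2) - Real.cos ((g i - g k) / 2)) /
        (Real.sin ((g i + g j) / 2) * Real.sin ((g k + g j) / 2)) : ℝ) : ℂ) := by
  classical
  have hsn : ∀ i k, Real.sin ((g i + g k) / 2) ≠ 0 := fun i k => by
    have := hg i; have := hg k
    simp only [Set.mem_Ioo] at *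
    exact (Real.sin_pos_of_pos_of_lt_pi (by linarith) (by linarith)).ne'
  -- kernel
  set s : ι → ι → ℝ := fun i k => Real.sin ((g i + g k) / 2) with hs
  have ssym : ∀ i k, s i k = s k i := fun i k => by simp only [hs, add_comm]
  set L : ι → ι → ℝ := fun i k => Lf (g i) (g k) with hL
  have Lsym : ∀ i k, L i k = L k i := fun i k => Lf_symm _ _
  -- the three rotated forms
  set w : ι → ι → ι → ℂ := fun i j k => R i j * R j k * R k i * (((s i j * s j k * s k i)⁻¹ : ℝ) : ℂ)
    with hw
  have wrot : ∀ i j k, w j k i = w i j k := fun i j k => by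
    simp only [hw]
    rw [show s j k * s k i * s i j = s i j * s j k * s k i by ring]
    ring
  set κ : ι → ι → ℝ := fun i k => (g i - g k) ^ 2 * L i k with hκ
  have ksym : ∀ i k, κ i k = κ k i := fun i k => by
    simp only [hκ, Lsym i k]; ring
  have e0 : (∑ i, ∑ j, ∑ k, R i j * R j k * R k i *
      (((Real.sinc ((g i - g k) / 2) - Real.cos ((g i - g k) / 2)) /
        (Real.sin ((g i + g j) / 2) * Real.sin ((g k + g j) / 2)) : ℝ) : ℂ))
      = ∑ i, ∑ j, ∑ k, w i j k * (κ i k : ℂ) := by
    refine Finset.sum_congr rfl fun i _ => Finset.sum_congr rfl fun j _ =>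
      Finset.sum_congr rfl fun k _ => ?_
    simp only [hw]
    rw [mul_assoc (R i j * R j k * R k i), ← Complex.ofReal_mul]
    congr 2
    simp only [hκ, hL, Lf_eq]
    rw [ssym j k, ssym k i]
    simp only [hs]
    have := hsn i j; have := hsn k j; have := hsn i k
    field_simp
  have e1 : ∑ i, ∑ j, ∑ k, w i j k * (κ i k : ℂ) = ∑ i, ∑ j, ∑ k, w i j k * (κ i j : ℂ) := by
    rw [rot fun i j k => w i j k * (κ i k : ℂ)]
    refine Finset.sum_congr rfl fun i _ => Finset.sum_congr rfl fun j _ =>
      Finset.sum_congr rfl fun k _ => ?_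
    rw [wrot, ksym j i]
  have e2 : ∑ i, ∑ j, ∑ k, w i j k * (κ i j : ℂ) = ∑ i, ∑ j, ∑ k, w i j k * (κ j k : ℂ) := by
    rw [rot fun i j k => w i j k * (κ i j : ℂ)]
    refine Finset.sum_congr rfl fun i _ => Finset.sum_congr rfl fun j _ =>
      Finset.sum_congr rfl fun k _ => ?_
    rw [wrot]
  -- vertex form
  set v : ι → ι → ι → ℝ := fun i j k => (g i - g j) * (g k - g j) * (L i j + L j k) with hv
  have hcyc : ∀ i j k, κ i k + κ i j + κ j k = v i j k + v j k i + v k i j := fun i j k => by
    simp only [hκ, hv]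
    rw [Lsym k i]
    ring
  have e3 : ∑ i, ∑ j, ∑ k, w i j k * (v j k i : ℂ) = ∑ i, ∑ j, ∑ k, w i j k * (v i j k : ℂ) := by
    conv_rhs => rw [rot fun i j k => w i j k * (v i j k : ℂ)]
    refine Finset.sum_congr rfl fun i _ => Finset.sum_congr rfl fun j _ =>
      Finset.sum_congr rfl fun k _ => ?_
    rw [wrot i j k]
  have e4 : ∑ i, ∑ j, ∑ k, w i j k * (v k i j : ℂ) = ∑ i, ∑ j, ∑ k, w i j k * (v i j k : ℂ) := by
    rw [rot fun i j k => w i j k * (v k i j : ℂ)]
    refine Finset.sum_congr rfl fun i _ => Finset.sum_congr rfl fun j _ =>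
      Finset.sum_congr rfl fun k _ => ?_
    rw [wrot]
  have e5 : ∑ i, ∑ j, ∑ k, w i j k * (κ i k : ℂ) = ∑ i, ∑ j, ∑ k, w i j k * (v i j k : ℂ) := by
    have h3 : (3 : ℂ) * ∑ i, ∑ j, ∑ k, w i j k * (κ i k : ℂ)
        = 3 * ∑ i, ∑ j, ∑ k, w i j k * (v i j k : ℂ) := by
      have a1 : (3 : ℂ) * ∑ i, ∑ j, ∑ k, w i j k * (κ i k : ℂ)
          = ∑ i, ∑ j, ∑ k, w i j k * (κ i k : ℂ) + ∑ i, ∑ j, ∑ k, w i j k * (κ i j : ℂ)
            + ∑ i, ∑ j, ∑ k, w i j k * (κ j k : ℂ) := by
        rw [← e2, ← e1]; ring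
      have a2 : (3 : ℂ) * ∑ i, ∑ j, ∑ k, w i j k * (v i j k : ℂ)
          = ∑ i, ∑ j, ∑ k, w i j k * (v i j k : ℂ) + ∑ i, ∑ j, ∑ k, w i j k * (v j k i : ℂ)
            + ∑ i, ∑ j, ∑ k, w i j k * (v k i j : ℂ) := by
        rw [e3, e4]; ring
      rw [a1, a2]
      simp only [← Finset.sum_add_distrib]
      refine Finset.sum_congr rfl fun i _ => Finset.sum_congr rfl fun j _ =>
        Finset.sum_congr rfl fun k _ => ?_
      rw [← mul_add, ← mul_add, ← mul_add, ← mul_add]
      congr 1
      exact_mod_cast hcyc i j k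
    exact mul_left_cancel₀ (by norm_num) h3
  rw [e0, e5, Finset.sum_comm]
  refine Finset.sum_nonneg fun j _ => ?_
  have hP := (hR.transpose).hadamard (PK.lam hg (hg j)).toComplex
  have hx := hP.dotProduct_mulVec_nonneg
    (fun i => star (R i j) * (((g i - g j) * (s i j)⁻¹ : ℝ) : ℂ))
  refine hx.trans_eq ?_
  simp only [dotProduct, Matrix.mulVec, Pi.star_apply, Finset.mul_sum, Matrix.hadamard_apply,
    Matrix.of_apply, Matrix.transpose_apply]
  refine Finset.sum_congr rfl fun i _ => Finset.sum_congr rfl fun k _ => ?_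
  have hRk : star (R k j) = R j k := hR.1.apply j k
  simp only [hw, hv, hL, hs, star_mul', Complex.star_def, Complex.conj_ofReal]
  rw [← Complex.star_def, hRk]
  rw [show Lf (g j) (g k) = Lf (g k) (g j) from Lf_symm _ _]
  rw [show g k + g i = g i + g k by ring, show g j + g k = g k + g j by ring]
  push_cast
  have a1 : Complex.sin ((g i + g j) / 2) ≠ 0 := by exact_mod_cast hsn i j
  have a2 : Complex.sin ((g k + g j) / 2) ≠ 0 := by exact_mod_cast hsn k j
  have a3 : Complex.sin ((g i + g k) / 2) ≠ 0 := by exact_mod_cast hsn i k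
  field_simp
  rw [star_star]
  ring

end H231LT
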